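import Pool.Agent.CCP.Pet65

set_option autoImplicit false

namespace Pool.Agent.Results.MP_219f5b_co.PetersenAntichain

open Pool.Agent.CCO Pool.Agent.CCP

/-- For graphs `a < b` in the cc order the interval `(a, b)` contains an infinite antichain,
except if `a` is equivalent to the Petersen graph, `b` is equivalent to `K₂`, and every
bridgeless graph maps to the Petersen graph (Jaeger's conjecture); in this case it contains
none. -/
theorem result (a b : FinGraph) (hab : Lt a b) :
    HasInfiniteAntichain a b ↔
      ¬ ((Le a Petersen ∧ Le Petersen a) ∧ (Le b K2 ∧ Le K2 b) ∧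
        ∀ G : FinGraph, Bridgeless G → Le G Petersen) := by
  rw [Classif.anti_result a b hab, special_iff a b]

/-- Consequence: every non-degenerate interval contains an infinite antichain if and only if
Jaeger's conjecture is false. -/
theorem q2_iff : (∀ a b : FinGraph, Lt a b → HasInfiniteAntichain a b) ↔
    ¬ ∀ G : FinGraph, Bridgeless G → Le G Petersen := by
  constructor
  · intro h hJ
    exact (result Petersen K2 petersen_lt_K2).1 (h _ _ petersen_lt_K2)
      ⟨⟨le_refl _, le_refl _⟩, ⟨le_refl _, le_refl _⟩, hJ⟩
  · intro hJ a b hab
    rw [result a b hab]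
    exact fun h => hJ h.2.2

end Pool.Agent.Results.MP_219f5b_co.PetersenAntichain
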