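import Pool.Agent.CCP.Pet65

set_option autoImplicit false

namespace Pool.Agent.Results.MP_219f5b_co.PetersenGap

open Pool.Agent.CCO Pool.Agent.CCP

/-- For graphs `a < b` in the cc order the interval `(a, b)` is empty if and only if `a` is
equivalent to the Petersen graph, `b` is equivalent to `K₂`, and every bridgeless graph maps to
the Petersen graph (Jaeger's conjecture). -/
theorem result (a b : FinGraph) (hab : Lt a b) :
    (¬ ∃ x : FinGraph, Lt a x ∧ Lt x b) ↔
      ((Le a Petersen ∧ Le Petersen a) ∧ (Le b K2 ∧ Le K2 b) ∧
        ∀ G : FinGraph, Bridgeless G → Le G Petersen) :=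
  (Classif.gap_result a b hab).trans (special_iff a b)

/-- Consequence: every non-degenerate interval is nonempty if and only if Jaeger's conjecture is
false. -/
theorem q1_iff : (∀ a b : FinGraph, Lt a b → ∃ x : FinGraph, Lt a x ∧ Lt x b) ↔
    ¬ ∀ G : FinGraph, Bridgeless G → Le G Petersen := by
  constructor
  · intro h hJ
    exact (result Petersen K2 petersen_lt_K2).2 ⟨⟨le_refl _, le_refl _⟩, ⟨le_refl _, le_refl _⟩,
      hJ⟩ (h _ _ petersen_lt_K2)
  · intro hJ a b hab
    by_contra hcon
    exact hJ ((result a b hab).1 hcon).2.2

/-- The main step: a bridgeless graph to which all bridgeless graphs map is equivalent to the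
Petersen graph. -/
theorem greatest_iff (U : FinGraph) (hU : Bridgeless U)
    (h : ∀ G : FinGraph, Bridgeless G → Le G U) : Le U Petersen ∧ Le Petersen U :=
  greatest U hU h

end Pool.Agent.Results.MP_219f5b_co.PetersenGap
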